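import Mathlib
import Pool.Agent.RTB.St
import Pool.Agent.RTB.B

set_option autoImplicit false

/-!
# DIL / NSA: asymptotics at the near-solutions

`2 β G ^ (β - 1) = n ^ β`, `m` an integer near `G`: `(m + 1) ^ β - (m - 1) ^ β - n ^ β` is small.
-/

open Filter
open scoped Topology

namespace Pool.Agent.DIL

/-- the odd part of the binomial series -/
theorem nsa_one (β m : ℝ) (h2 : 2 ≤ β) (h3 : β ≤ 3) (hm : 2 ≤ m) :
    |(m + 1) ^ β - (m - 1) ^ β - 2 * β * m ^ (β - 1)| ≤ 12 * m ^ (β - 3) := by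
  have hm0 : 0 < m := by linarith
  obtain ⟨x, hx⟩ : ∃ x : ℝ, x = 1 / m := ⟨_, rfl⟩
  have hx0 : 0 < x := by rw [hx]; positivity
  have hx1 : x ≤ 1 / 2 := by
    rw [hx]
    exact one_div_le_one_div_of_le (by norm_num) hm
  have hmx : m * x = 1 := by rw [hx]; field_simp
  have b1 := Pool.Agent.RTB.thm_B β x h2 h3 (by rw [abs_of_pos hx0]; exact hx1)
  have b2 := Pool.Agent.RTB.thm_B β (-x) h2 h3 (by rw [abs_neg, abs_of_pos hx0]; exact hx1)
  rw [abs_neg, abs_of_pos hx0] at b2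
  rw [abs_of_pos hx0] at b1
  have hmβ : 0 < m ^ β := Real.rpow_pos_of_pos hm0 _
  have e1 : (m + 1) ^ β = m ^ β * (1 + x) ^ β := by
    rw [← Real.mul_rpow hm0.le (by linarith)]
    congr 1
    rw [mul_add, hmx, mul_one]
  have e2 : (m - 1) ^ β = m ^ β * (1 + -x) ^ β := by
    rw [← Real.mul_rpow hm0.le (by linarith)]
    congr 1
    rw [mul_add, mul_neg, hmx, mul_one]
    ring
  have e3 : m ^ (β - 1) = m ^ β * x := by
    rw [Real.rpow_sub hm0, Real.rpow_one, hx]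
    ring
  have e4 : m ^ (β - 3) = m ^ β * x ^ 3 := by
    rw [Real.rpow_sub hm0, hx, show (3 : ℝ) = ((3 : ℕ) : ℝ) by norm_num, Real.rpow_natCast]
    field_simp
  rw [e1, e2, e3, e4]
  rw [abs_le] at b1 b2
  have e5 : m ^ β * (1 + x) ^ β - m ^ β * (1 + -x) ^ β - 2 * β * (m ^ β * x) =
      m ^ β * (((1 + x) ^ β - 1 - β * x - β * (β - 1) / 2 * x ^ 2) -
        ((1 + -x) ^ β - 1 - β * -x - β * (β - 1) / 2 * (-x) ^ 2)) := by ring
  rw [e5, abs_mul, abs_of_pos hmβ]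
  have e6 : |((1 + x) ^ β - 1 - β * x - β * (β - 1) / 2 * x ^ 2) -
        ((1 + -x) ^ β - 1 - β * -x - β * (β - 1) / 2 * (-x) ^ 2)| ≤ 12 * x ^ 3 := by
    rw [abs_le]
    constructor <;> linarith [b1.1, b1.2, b2.1, b2.2]
  calc m ^ β * |((1 + x) ^ β - 1 - β * x - β * (β - 1) / 2 * x ^ 2) -
        ((1 + -x) ^ β - 1 - β * -x - β * (β - 1) / 2 * (-x) ^ 2)| ≤ m ^ β * (12 * x ^ 3) :=
        mul_le_mul_of_nonneg_left e6 hmβ.le
    _ = _ := by ring

/-- **Near-solutions**, in terms of `G`. -/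
theorem nsa (β G m : ℝ) (h2 : 2 ≤ β) (h3 : β ≤ 3) (hG : 4 ≤ G) (hm : |m - G| ≤ 1 / 2) :
    |(m + 1) ^ β - (m - 1) ^ β - 2 * β * G ^ (β - 1)| ≤
      24 * (G ^ (β - 2) * |m - G| + G ^ (β - 3)) := by
  have hG0 : 0 < G := by linarith
  obtain ⟨hm1, hm2⟩ := abs_le.1 hm
  have hmG : G / 2 ≤ m := by linarith
  have hm0 : 0 < m := by linarith
  have h1 := nsa_one β m h2 h3 (by linarith)
  -- `m ^ (β - 3) ≤ 2 G ^ (β - 3)`
  have e1 : m ^ (β - 3) ≤ 2 * G ^ (β - 3) := by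
    have e2 : m ^ (β - 3) ≤ (G / 2) ^ (β - 3) :=
      Real.rpow_le_rpow_of_nonpos (by linarith) hmG (by linarith)
    have e3 : (G / 2) ^ (β - 3) = G ^ (β - 3) * (2 : ℝ) ^ (3 - β) := by
      rw [Real.div_rpow hG0.le (by norm_num), show (3 - β : ℝ) = -(β - 3) by ring,
        Real.rpow_neg (by norm_num)]
      ring
    have e4 : (2 : ℝ) ^ (3 - β) ≤ 2 := by
      calc (2 : ℝ) ^ (3 - β) ≤ (2 : ℝ) ^ (1 : ℝ) :=
            Real.rpow_le_rpow_of_exponent_le (by norm_num) (by linarith)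
        _ = 2 := Real.rpow_one _
    have e5 : 0 < G ^ (β - 3) := Real.rpow_pos_of_pos hG0 _
    rw [e3] at e2
    nlinarith
  -- the mean value theorem
  have e6 : |m ^ (β - 1) - G ^ (β - 1)| ≤ 4 * G ^ (β - 2) * |m - G| := by
    have hd : ∀ y ∈ Set.Icc (G - 1 / 2) (G + 1 / 2),
        HasDerivWithinAt (fun z : ℝ => z ^ (β - 1)) ((β - 1) * y ^ (β - 1 - 1))
          (Set.Icc (G - 1 / 2) (G + 1 / 2)) y := by
      intro y hy
      have hy0 : 0 < y := by linarith [hy.1]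
      exact (Real.hasDerivAt_rpow_const (Or.inl hy0.ne')).hasDerivWithinAt
    have hb : ∀ y ∈ Set.Icc (G - 1 / 2) (G + 1 / 2), ‖(β - 1) * y ^ (β - 1 - 1)‖ ≤
        4 * G ^ (β - 2) := by
      intro y hy
      have hy0 : 0 < y := by linarith [hy.1]
      have e7 : β - 1 - 1 = β - 2 := by ring
      rw [e7, Real.norm_eq_abs, abs_of_nonneg (mul_nonneg (by linarith)
        (Real.rpow_nonneg hy0.le _))]
      have e8 : y ^ (β - 2) ≤ (2 * G) ^ (β - 2) :=
        Real.rpow_le_rpow hy0.le (by linarith [hy.2]) (by linarith)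
      have e9 : (2 * G) ^ (β - 2) = (2 : ℝ) ^ (β - 2) * G ^ (β - 2) :=
        Real.mul_rpow (by norm_num) hG0.le
      have e10 : (2 : ℝ) ^ (β - 2) ≤ 2 := by
        calc (2 : ℝ) ^ (β - 2) ≤ (2 : ℝ) ^ (1 : ℝ) :=
              Real.rpow_le_rpow_of_exponent_le (by norm_num) (by linarith)
          _ = 2 := Real.rpow_one _
      have e11 : 0 < G ^ (β - 2) := Real.rpow_pos_of_pos hG0 _
      have e12 : y ^ (β - 2) ≤ 2 * G ^ (β - 2) := by
        rw [e9] at e8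
        nlinarith
      calc (β - 1) * y ^ (β - 2) ≤ 2 * (2 * G ^ (β - 2)) :=
            mul_le_mul (by linarith) e12 (Real.rpow_nonneg hy0.le _) (by norm_num)
        _ = _ := by ring
    have h4 := Convex.norm_image_sub_le_of_norm_hasDerivWithin_le hd hb (convex_Icc _ _)
      (show G ∈ Set.Icc (G - 1 / 2) (G + 1 / 2) from ⟨by linarith, by linarith⟩)
      (show m ∈ Set.Icc (G - 1 / 2) (G + 1 / 2) from ⟨by linarith, by linarith⟩)
    rwa [Real.norm_eq_abs, Real.norm_eq_abs] at h4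
  have e13 : |2 * β * m ^ (β - 1) - 2 * β * G ^ (β - 1)| ≤ 24 * (G ^ (β - 2) * |m - G|) := by
    rw [← mul_sub, abs_mul, abs_of_nonneg (by linarith : (0 : ℝ) ≤ 2 * β)]
    have e14 : 0 ≤ 4 * G ^ (β - 2) * |m - G| := by positivity
    calc 2 * β * |m ^ (β - 1) - G ^ (β - 1)| ≤ 6 * (4 * G ^ (β - 2) * |m - G|) :=
          mul_le_mul (by linarith) e6 (abs_nonneg _) (by norm_num)
      _ = _ := by ring
  have e15 : (m + 1) ^ β - (m - 1) ^ β - 2 * β * G ^ (β - 1) =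
      ((m + 1) ^ β - (m - 1) ^ β - 2 * β * m ^ (β - 1)) +
        (2 * β * m ^ (β - 1) - 2 * β * G ^ (β - 1)) := by ring
  rw [e15]
  refine (abs_add_le _ _).trans ?_
  linarith

/-- **Near-solutions**, in terms of `n`: `G = λ n ^ κ`, `κ = β / (β - 1)`, `λ = (2 β) ^ (-1 / (β - 1))`. -/
theorem nsa_n (β : ℝ) (h2 : 2 ≤ β) (h3 : β ≤ 3) (n m G : ℝ) (hn : 1 ≤ n)
    (hGn : G = (2 * β) ^ (-(1 / (β - 1))) * n ^ (β / (β - 1))) (hG : 4 ≤ G)
    (hm : |m - G| ≤ 1 / 2) :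
    |(m + 1) ^ β - (m - 1) ^ β - n ^ β| ≤
      144 * (n ^ (β / (β - 1) * (β - 2)) * |m - G| + n ^ (β / (β - 1) * (β - 3))) := by
  have hn0 : 0 < n := by linarith
  have hb1 : 0 < β - 1 := by linarith
  have h2β : 0 < 2 * β := by linarith
  have hl0 : 0 < (2 * β) ^ (-(1 / (β - 1))) := Real.rpow_pos_of_pos h2β _
  have e1 : 2 * β * G ^ (β - 1) = n ^ β := by
    rw [hGn, Real.mul_rpow hl0.le (Real.rpow_nonneg hn0.le _), ← Real.rpow_mul h2β.le,
      ← Real.rpow_mul hn0.le]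
    have e2 : -(1 / (β - 1)) * (β - 1) = -1 := by field_simp
    have e3 : β / (β - 1) * (β - 1) = β := by field_simp
    rw [e2, e3, Real.rpow_neg_one]
    field_simp
  have h := nsa β G m h2 h3 hG hm
  rw [e1] at h
  refine h.trans ?_
  have hl1 : (2 * β) ^ (-(1 / (β - 1))) ≤ 1 :=
    Real.rpow_le_one_of_one_le_of_nonpos (by linarith) (by
      rw [neg_nonpos]
      positivity)
  have e4 : G ^ (β - 2) ≤ n ^ (β / (β - 1) * (β - 2)) := by
    rw [Real.rpow_mul hn0.le]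
    apply Real.rpow_le_rpow (by linarith) _ (by linarith)
    rw [hGn]
    have : 0 < n ^ (β / (β - 1)) := Real.rpow_pos_of_pos hn0 _
    nlinarith
  have e5 : G ^ (β - 3) ≤ 6 * n ^ (β / (β - 1) * (β - 3)) := by
    rw [hGn, Real.mul_rpow hl0.le (Real.rpow_nonneg hn0.le _), ← Real.rpow_mul h2β.le,
      ← Real.rpow_mul hn0.le]
    apply mul_le_mul_of_nonneg_right _ (Real.rpow_nonneg hn0.le _)
    calc (2 * β) ^ (-(1 / (β - 1)) * (β - 3)) ≤ (2 * β) ^ (1 : ℝ) := by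
          apply Real.rpow_le_rpow_of_exponent_le (by linarith)
          have : -(1 / (β - 1)) * (β - 3) = (3 - β) / (β - 1) := by ring
          rw [this, div_le_one hb1]
          linarith
      _ = 2 * β := Real.rpow_one _
      _ ≤ 6 := by linarith
  have e6 : 0 ≤ |m - G| := abs_nonneg _
  have e7 : 0 ≤ n ^ (β / (β - 1) * (β - 2)) := Real.rpow_nonneg hn0.le _
  have e8 := mul_le_mul_of_nonneg_right e4 e6
  have e9 : 0 ≤ n ^ (β / (β - 1) * (β - 2)) * |m - G| := mul_nonneg e7 e6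
  linarith

end Pool.Agent.DIL
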